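import Pool.Agent.Lib.helper22.Conv

namespace Pool.Agent.Results.MP_4410f0_an.Small

open Filter Topology OnePoint Metric Pool.Agent.Lib.helper22 Weak Conv

def RelWeakOpen {X : Type} [NormedAddCommGroup X] [NormedSpace ℝ X] (W : Set X) : Prop :=
  ∃ U : Set (WeakSpace ℝ X), IsOpen U ∧ W = {y | ‖y‖ ≤ 1 ∧ toWeakSpace ℝ X y ∈ U}

noncomputable def thick (X : Type) [NormedAddCommGroup X] [NormedSpace ℝ X] : ℝ :=
  sInf {r | 0 < r ∧ ∃ (x : X) (W : Set X), ‖x‖ = 1 ∧ RelWeakOpen W ∧ W.Nonempty ∧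
    W ⊆ closedBall x r}

theorem result : ∃ (X : Type) (_ : NormedAddCommGroup X) (_ : NormedSpace ℝ X)
    (_ : CompleteSpace X), Nontrivial X ∧ 1 ≤ thick X ∧
    ∃ W : Set X, RelWeakOpen W ∧ W.Nonempty ∧ diam W ≤ 3 / 2 := by
  obtain ⟨X, i1, i2, i3, e, he⟩ := supnorm (fun k : K => (ev k).prod (ev ∞ - ev k)) 2 1 one_pos
    (fun k z => norm_prod_le_iff.2 ⟨(co z k).trans (by linarith [norm_nonneg z]),
      (abs_sub (z ∞) (z k)).trans (by linarith [co z k, co z ∞])⟩)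
    (fun z r h => nle z fun k => (norm_prod_le_iff.1 (h k)).1.trans_eq (one_mul r).symm)
  replace he : ∀ z r, ‖e z‖ ≤ r ↔ ∀ k, |z k| ≤ r ∧ |z ∞ - z k| ≤ r := fun z r =>
    (he z r).trans (forall_congr' fun k => norm_prod_le_iff)
  have n1 : ‖e 1‖ = 1 := le_antisymm ((he 1 1).2 fun k => by simp)
    (by simpa using ((he 1 _).1 le_rfl ∞).1)
  have o1 : IsOpen {y : WeakSpace ℝ X | 1 / 2 < (ev ∞ ∘L e.symm.toContinuousLinearMap)
    ((toWeakSpace ℝ X).symm y)} := isOpen_lt continuous_const (wcont _)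
  refine ⟨X, i1, i2, i3, ⟨e 1, 0, norm_ne_zero_iff.1 (by simp [n1])⟩, le_csInf
    ⟨2, two_pos, e 1, _, n1, ⟨_, isOpen_univ, rfl⟩, ⟨0, by simp⟩, fun y hy => ?_⟩ ?_,
    _, ⟨_, o1, rfl⟩, ⟨e 1, n1.le, ?_⟩, diam_le_of_forall_dist_le (by norm_num) ?_⟩
  · rw [mem_closedBall_iff_norm]
    linarith [norm_sub_le y (e 1), hy.1]
  · rintro r ⟨-, x, _, -, ⟨U, hU, rfl⟩, ⟨y, h1, h2⟩, h⟩
    obtain ⟨x, rfl⟩ := e.surjective x
    obtain ⟨y, rfl⟩ := e.surjective y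
    obtain ⟨b, b1, b2⟩ : ∃ b, |b| ≤ 1 ∧ |y ∞ - b| = 1 := by
      have := abs_le.1 ((he y 1).1 h1 ∞).1
      rcases le_total 0 (y ∞) with c | c
      · exact ⟨y ∞ - 1, abs_le.2 ⟨by linarith, by linarith⟩, by simp⟩
      · exact ⟨y ∞ + 1, abs_le.2 ⟨by linarith, by linarith⟩, by simp⟩
    have t := wtend (wn e.toContinuousLinearMap (fun n => b - y n) 2 (fun n =>
      (abs_sub _ _).trans (by linarith [((he y 1).1 h1 n).1])) (e y))
    have t2 := (((lim x).const_sub (x ∞)).const_sub (y ∞ - b)).abs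
    rw [sub_self, sub_zero, b2] at t2
    refine le_of_tendsto t2 ((t.eventually (hU.mem_nhds h2)).mono fun n hn => ?_)
    have e1 : e y + e.toContinuousLinearMap ((b - y n) • u n) = e (y + (b - y n) • u n) :=
      (map_add e _ _).symm
    rw [e1] at hn
    have a := mem_closedBall_iff_norm.1 (h ⟨(he _ 1).2 fun k => ?_, hn⟩)
    · rw [← map_sub] at a
      refine le_trans (le_of_eq (congrArg abs ?_)) ((he _ r).1 a n).2
      simp [u_inf, u_self]; ring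
    · rcases eq_or_ne k n with rfl | c
      · simpa [u_inf, u_self, b2] using b1
      · simpa [u_inf, u_ne c] using (he y 1).1 h1 k
  · show 1 / 2 < e.symm (e 1) ∞
    norm_num
  · rintro y ⟨h1, h2⟩ z ⟨h3, h4⟩
    obtain ⟨y, rfl⟩ := e.surjective y
    obtain ⟨z, rfl⟩ := e.surjective z
    replace h2 : 1 / 2 < e.symm (e y) ∞ := h2
    replace h4 : 1 / 2 < e.symm (e z) ∞ := h4
    rw [e.symm_apply_apply] at h2 h4
    rw [dist_eq_norm, ← map_sub]
    refine (he _ _).2 fun k => ?_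
    obtain ⟨a1, a2⟩ := (he y 1).1 h1 k
    obtain ⟨a3, a4⟩ := (he z 1).1 h3 k
    simp only [ContinuousMap.sub_apply, abs_le] at *
    refine ⟨⟨?_, ?_⟩, ?_, ?_⟩ <;> linarith [a1.1, a1.2, a2.1, a2.2, a3.1, a3.2, a4.1, a4.2]

end Pool.Agent.Results.MP_4410f0_an.Small
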